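import Mathlib
import Pool.Agent.Results.MP_1c213c_co.DefectCoindex

/-!
# Sweeps of a hypergraph and the coindex of the box complex
-/

set_option autoImplicit false
set_option linter.unusedSectionVars false

namespace Pool.Agent.Y857.DC

open Pool.Agent.Results.MP_1c213c_co Pool.Agent.Results.MP_1c213c_co.DefectCoindex

/-- the unit sphere `S^m` -/
abbrev Sph (m : ℕ) : Type := Metric.sphere (0 : EuclideanSpace ℝ (Fin (m + 1))) 1

/-- An `m`-sweep of the hypergraph `H`: a continuous odd map `f` from the sphere `S^m` to the real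
functions on the vertex set such that, for every `x` and every real `s`, some edge of `H` lies in
`{f x > s}` or in `{f x < s}`. -/
def Sweep {W : Type} (m : ℕ) (H : DefectCoindex.Hypergraph W) : Prop :=
  ∃ f : Sph m → W → ℝ, Continuous f ∧ (∀ x, f (-x) = - f x) ∧
    ∀ x s, ∃ e ∈ H.edges, (∀ i ∈ e, s < f x i) ∨ ∀ i ∈ e, f x i < s

section sweep

variable {V W : Type} [Fintype W] {m : ℕ} (φ : V → Set W) (f : Sph m → W → ℝ)

/-- both open sides contain a set of the family -/
def good (x : Sph m) : Set ℝ :=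
  {s | (∃ v, ∀ i ∈ φ v, s < f x i) ∧ ∃ v, ∀ i ∈ φ v, f x i < s}

theorem good_neg (hodd : ∀ x, f (-x) = - f x) (x : Sph m) {s : ℝ} (hs : s ∈ good φ f x) :
    -s ∈ good φ f (-x) := by
  obtain ⟨⟨v, hv⟩, ⟨w, hw⟩⟩ := hs
  refine ⟨⟨w, fun i hi => ?_⟩, ⟨v, fun i hi => ?_⟩⟩
  · rw [hodd, Pi.neg_apply]; linarith [hw i hi]
  · rw [hodd, Pi.neg_apply]; linarith [hv i hi]

theorem good_convex (x : Sph m) : Convex ℝ (good φ f x) := by
  have h : Set.OrdConnected (good φ f x) := by
    refine ⟨?_⟩
    rintro a ⟨-, ⟨w, hw⟩⟩ b ⟨⟨v, hv⟩, -⟩ s ⟨h1, h2⟩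
    refine ⟨⟨v, fun i hi => ?_⟩, ⟨w, fun i hi => ?_⟩⟩
    · linarith [hv i hi]
    · linarith [hw i hi]
  exact h.convex

theorem isOpen_pos (x : Sph m) (v : V) : IsOpen {s : ℝ | ∀ i ∈ φ v, s < f x i} := by
  have h : {s : ℝ | ∀ i ∈ φ v, s < f x i} = ⋂ i ∈ φ v, {s | s < f x i} := by
    ext s; simp
  rw [h]
  exact (Set.toFinite (φ v)).isOpen_biInter fun i _ => isOpen_lt continuous_id continuous_const

theorem isOpen_neg (x : Sph m) (v : V) : IsOpen {s : ℝ | ∀ i ∈ φ v, f x i < s} := by
  have h : {s : ℝ | ∀ i ∈ φ v, f x i < s} = ⋂ i ∈ φ v, {s | f x i < s} := by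
    ext s; simp
  rw [h]
  exact (Set.toFinite (φ v)).isOpen_biInter fun i _ => isOpen_lt continuous_const continuous_id

theorem good_nonempty (x : Sph m) (hne : Nonempty V)
    (hcov : ∀ s, (∃ v, ∀ i ∈ φ v, s < f x i) ∨ ∃ v, ∀ i ∈ φ v, f x i < s) :
    (good φ f x).Nonempty := by
  obtain ⟨v₀⟩ := hne
  let u : Set ℝ := {s | ∃ v, ∀ i ∈ φ v, s < f x i}
  let w : Set ℝ := {s | ∃ v, ∀ i ∈ φ v, f x i < s}
  have hu : IsOpen u := by
    have : u = ⋃ v, {s | ∀ i ∈ φ v, s < f x i} := by ext s; simp [u]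
    rw [this]
    exact isOpen_iUnion fun v => isOpen_pos φ f x v
  have hw : IsOpen w := by
    have : w = ⋃ v, {s | ∀ i ∈ φ v, f x i < s} := by ext s; simp [w]
    rw [this]
    exact isOpen_iUnion fun v => isOpen_neg φ f x v
  let K : ℝ := ∑ i : W, |f x i|
  have hK : ∀ i : W, |f x i| ≤ K := fun i =>
    Finset.single_le_sum (f := fun i : W => |f x i|) (fun _ _ => abs_nonneg _) (Finset.mem_univ i)
  have hune : (Set.univ ∩ u).Nonempty := by
    refine ⟨-(K + 1), trivial, v₀, fun i _ => ?_⟩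
    have := hK i
    have h2 := neg_abs_le (f x i)
    linarith
  have hwne : (Set.univ ∩ w).Nonempty := by
    refine ⟨K + 1, trivial, v₀, fun i _ => ?_⟩
    have := hK i
    have h2 := le_abs_self (f x i)
    linarith
  obtain ⟨s, -, hs⟩ := isPreconnected_univ (α := ℝ) u w hu hw
    (fun s _ => hcov s) hune hwne
  exact ⟨s, hs⟩

theorem good_local (hf : Continuous f) (x : Sph m) {s : ℝ} (hs : s ∈ good φ f x) :
    ∀ᶠ y in nhds x, s ∈ good φ f y := by
  obtain ⟨⟨v, hv⟩, ⟨w, hw⟩⟩ := hs
  have hc : ∀ i, ContinuousAt (fun y => f y i) x := fun i =>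
    ((continuous_apply i).comp hf).continuousAt
  have h1 : ∀ᶠ y in nhds x, ∀ i ∈ φ v, s < f y i := by
    refine (Filter.eventually_all_finite (Set.toFinite (φ v))).2 fun i hi => ?_
    exact (hc i).eventually (lt_mem_nhds (hv i hi))
  have h2 : ∀ᶠ y in nhds x, ∀ i ∈ φ w, f y i < s := by
    refine (Filter.eventually_all_finite (Set.toFinite (φ w))).2 fun i hi => ?_
    exact (hc i).eventually (gt_mem_nhds (hw i hi))
  filter_upwards [h1, h2] with y hy1 hy2
  exact ⟨⟨v, hy1⟩, ⟨w, hy2⟩⟩

/-- an odd continuous choice of good positions -/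
theorem exists_odd_section (hf : Continuous f) (hodd : ∀ x, f (-x) = - f x)
    (hne : ∀ x : Sph m, (good φ f x).Nonempty) :
    ∃ g : Sph m → ℝ, Continuous g ∧ (∀ x, g (-x) = - g x) ∧ ∀ x, g x ∈ good φ f x := by
  obtain ⟨g, hg⟩ := exists_continuous_forall_mem_convex_of_local_const
    (X := Sph m) (E := ℝ) (t := fun x => good φ f x)
    (fun x => good_convex φ f x) (fun x => by
      obtain ⟨s, hs⟩ := hne x
      exact ⟨s, good_local φ f hf x hs⟩)
  refine ⟨fun x => (1 / 2 : ℝ) * g x + (1 / 2 : ℝ) * (- g (-x)), ?_, ?_, ?_⟩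
  · have hn : Continuous (fun x : Sph m => -x) := continuous_neg
    exact ((continuous_const.mul g.continuous)).add
      (continuous_const.mul (g.continuous.comp hn).neg)
  · intro x
    simp only [neg_neg]
    ring
  · intro x
    have h1 := hg x
    have h2 : - g (-x) ∈ good φ f x := by
      have := good_neg φ f hodd _ (hg (-x))
      simpa using this
    have := good_convex φ f x h1 h2
      (show (0 : ℝ) ≤ 1 / 2 by norm_num) (show (0 : ℝ) ≤ 1 / 2 by norm_num) (by norm_num)
    simpa using this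

end sweep

/-! ### The equivariant map -/

section map

variable {V W : Type} [Fintype V] [Fintype W]

open Classical in
theorem hasMap_of_section {m : ℕ} (G : SimpleGraph V) (φ : V → Set W) (f : Sph m → W → ℝ)
    (hf : Continuous f) (hfodd : ∀ x, f (-x) = - f x)
    (hnon : ∀ v, (φ v).Nonempty) (hadj : ∀ v w, v ≠ w → Disjoint (φ v) (φ w) → G.Adj v w)
    (g : Sph m → ℝ) (hg : Continuous g) (hodd : ∀ x, g (-x) = - g x)
    (hgood : ∀ x, g x ∈ good φ f x) :
    HasMap m (Box G) (swap (simplex_symm G)) := by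
  let h : Sph m → W → ℝ := fun x i => f x i - g x
  have hc : ∀ i, Continuous (fun x => h x i) := fun i =>
    ((continuous_apply i).comp hf).sub hg
  have hho : ∀ x i, h (-x) i = - h x i := by
    intro x i
    have : h (-x) i = f (-x) i - g (-x) := rfl
    rw [this, hodd, hfodd, Pi.neg_apply]
    show - f x i - - g x = - (f x i - g x)
    ring
  let c : Sph m → V × Bool → ℝ := fun x w =>
    ∏ i ∈ (φ w.1).toFinset, max (if w.2 then h x i else - h x i) 0
  have hcc : ∀ w, Continuous (fun x => c x w) := by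
    rintro ⟨v, b⟩
    refine continuous_finsetProd _ fun i _ => ?_
    cases b
    · simpa using ((hc i).neg).max continuous_const
    · simpa using (hc i).max continuous_const
  have hc0 : ∀ x w, 0 ≤ c x w := fun x w => Finset.prod_nonneg fun i _ => le_max_right _ _
  have hcpos : ∀ x v, 0 < c x (v, true) ↔ ∀ i ∈ φ v, 0 < h x i := by
    intro x v
    constructor
    · intro hp i hi
      by_contra hle
      push Not at hle
      have : c x (v, true) = 0 := by
        refine Finset.prod_eq_zero (Set.mem_toFinset.2 hi) ?_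
        simpa using hle
      rw [this] at hp
      exact lt_irrefl _ hp
    · intro hp
      refine Finset.prod_pos fun i hi => ?_
      have := hp i (Set.mem_toFinset.1 hi)
      simpa using this
  have hcneg : ∀ x v, 0 < c x (v, false) ↔ ∀ i ∈ φ v, h x i < 0 := by
    intro x v
    constructor
    · intro hp i hi
      by_contra hle
      push Not at hle
      have : c x (v, false) = 0 := by
        refine Finset.prod_eq_zero (Set.mem_toFinset.2 hi) ?_
        simpa using hle
      rw [this] at hp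
      exact lt_irrefl _ hp
    · intro hp
      refine Finset.prod_pos fun i hi => ?_
      have := hp i (Set.mem_toFinset.1 hi)
      simpa using this
  let S : Sph m → ℝ := fun x => ∑ w, c x w
  have hSc : Continuous S := continuous_finsetSum _ fun w _ => hcc w
  have hpos' : ∀ x v, (∀ i ∈ φ v, g x < f x i) → ∀ i ∈ φ v, 0 < h x i := fun x v hv i hi =>
    sub_pos.2 (hv i hi)
  have hneg' : ∀ x v, (∀ i ∈ φ v, f x i < g x) → ∀ i ∈ φ v, h x i < 0 := fun x v hv i hi =>
    sub_neg.2 (hv i hi)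
  have hSpos : ∀ x, 0 < S x := by
    intro x
    obtain ⟨⟨v, hv⟩, -⟩ := hgood x
    exact Finset.sum_pos' (fun w _ => hc0 x w)
      ⟨(v, true), Finset.mem_univ _, (hcpos x v).2 (hpos' x v hv)⟩
  have hne : ∀ x w, c x w / S x ≠ 0 ↔ 0 < c x w := by
    intro x w
    constructor
    · intro h1
      refine lt_of_le_of_ne (hc0 x w) fun h2 => h1 ?_
      rw [← h2, zero_div]
    · intro h1
      exact (div_pos h1 (hSpos x)).ne'
  have hsimp : ∀ x, Simplex G {v | c x (v, true) / S x ≠ 0} {v | c x (v, false) / S x ≠ 0} := by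
    intro x
    have hA : ∀ v, v ∈ {v | c x (v, true) / S x ≠ 0} ↔ ∀ i ∈ φ v, 0 < h x i := fun v =>
      (hne x _).trans (hcpos x v)
    have hB : ∀ v, v ∈ {v | c x (v, false) / S x ≠ 0} ↔ ∀ i ∈ φ v, h x i < 0 := fun v =>
      (hne x _).trans (hcneg x v)
    have hadj' : ∀ a ∈ {v | c x (v, true) / S x ≠ 0}, ∀ b ∈ {v | c x (v, false) / S x ≠ 0},
        G.Adj a b := by
      intro a ha b hb
      rw [hA] at ha
      rw [hB] at hb
      refine hadj a b ?_ ?_
      · rintro rfl
        obtain ⟨i, hi⟩ := hnon a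
        exact lt_asymm (ha i hi) (hb i hi)
      · rw [Set.disjoint_left]
        intro i hi hi'
        exact lt_asymm (ha i hi) (hb i hi')
    obtain ⟨⟨v, hv⟩, ⟨w, hw⟩⟩ := hgood x
    have hvA : v ∈ {v | c x (v, true) / S x ≠ 0} := (hA v).2 (hpos' x v hv)
    have hwB : w ∈ {v | c x (v, false) / S x ≠ 0} := (hB w).2 (hneg' x w hw)
    refine ⟨⟨?_, hadj'⟩, ⟨w, fun a ha => hadj' a ha w hwB⟩, ⟨v, fun b hb => (hadj' v hvA b hb).symm⟩⟩
    rw [Set.disjoint_left]
    intro a ha hb
    exact (hadj' a ha a hb).ne rfl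
  refine ⟨fun x => ⟨fun w => c x w / S x, fun w => div_nonneg (hc0 x w) (hSpos x).le, ?_,
    hsimp x⟩, ?_, ?_⟩
  · rw [← Finset.sum_div]
    exact div_self (hSpos x).ne'
  · refine Continuous.subtype_mk (continuous_pi fun w => ?_) _
    exact (hcc w).div hSc fun x => (hSpos x).ne'
  · intro x
    apply Subtype.ext
    funext w
    have hcsw : ∀ w : V × Bool, c (-x) w = c x (w.1, !w.2) := by
      rintro ⟨v, b⟩
      refine Finset.prod_congr rfl fun i _ => ?_
      rw [hho]
      cases b <;> simp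
    have hSsw : S (-x) = S x := by
      refine Fintype.sum_equiv (Equiv.prodCongr (Equiv.refl V) Equiv.boolNot) _ _ fun w => ?_
      exact hcsw w
    show c (-x) w / S (-x) = c x (w.1, !w.2) / S x
    rw [hcsw, hSsw]

/-- an `m`-sweep gives an equivariant map from the sphere to the box complex -/
theorem hasMap_of_sweep {m : ℕ} (G : SimpleGraph V) (H : DefectCoindex.Hypergraph W) (φ : V → Set W)
    (hφ : IsKneserRep G H φ) (hs : Sweep m H) : HasMap m (Box G) (swap (simplex_symm G)) := by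
  obtain ⟨f, hf, hodd, hcov⟩ := hs
  have hnon : ∀ v, (φ v).Nonempty := fun v => H.nonempty _ (hφ.1.mapsTo (Set.mem_univ v))
  have hadj : ∀ v w, v ≠ w → Disjoint (φ v) (φ w) → G.Adj v w := fun v w h1 h2 =>
    (hφ.2 v w h1).2 h2
  have hcov' : ∀ x s, (∃ v, ∀ i ∈ φ v, s < f x i) ∨ ∃ v, ∀ i ∈ φ v, f x i < s := by
    intro x s
    obtain ⟨e, he, h1⟩ := hcov x s
    obtain ⟨v, -, rfl⟩ := hφ.1.surjOn he
    rcases h1 with h1 | h1
    · exact Or.inl ⟨v, h1⟩
    · exact Or.inr ⟨v, h1⟩
  have hV : Nonempty V := by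
    have hx : ∃ x : Sph m, True := by
      refine ⟨⟨EuclideanSpace.single 0 1, ?_⟩, trivial⟩
      rw [mem_sphere_zero_iff_norm]
      simp
    obtain ⟨x, -⟩ := hx
    rcases hcov' x 0 with ⟨v, -⟩ | ⟨v, -⟩ <;> exact ⟨v⟩
  obtain ⟨g, hg, hgodd, hgood⟩ := exists_odd_section φ f hf hodd
    (fun x => good_nonempty φ f x hV (hcov' x))
  exact hasMap_of_section G φ f hf hodd hnon hadj g hg hgodd hgood

/-- the moment curve gives an `m`-sweep when the colorability defect is at least `m + 2` -/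
theorem sweep_of_cd {m : ℕ} (H : DefectCoindex.Hypergraph W) (hm : m + 2 ≤ cd H) : Sweep m H := by
  classical
  refine ⟨fun x i => ∑ j : Fin (m + 1), (x : EuclideanSpace ℝ (Fin (m + 1))) j *
    par i ^ ((j : ℕ) + 1), ?_, ?_, ?_⟩
  · refine continuous_pi fun i => ?_
    have := (val_continuous (m := m) i).comp
      ((continuous_const (y := (0 : ℝ))).prodMk (continuous_subtype_val (p := fun x =>
        x ∈ Metric.sphere (0 : EuclideanSpace ℝ (Fin (m + 1))) 1)))
    refine this.congr fun x => ?_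
    simp [val]
  · intro x
    funext i
    have : ∀ j, ((-x : Sph m) : EuclideanSpace ℝ (Fin (m + 1))) j =
      - (x : EuclideanSpace ℝ (Fin (m + 1))) j := fun j => rfl
    simp only [this, neg_mul, Finset.sum_neg_distrib, Pi.neg_apply]
  · intro x s
    have hx : (x : EuclideanSpace ℝ (Fin (m + 1))) ≠ 0 := by
      intro h0
      have h1 := x.2
      rw [mem_sphere_zero_iff_norm, h0, norm_zero] at h1
      exact zero_ne_one h1
    have hval : ∀ i : W, val (-s) (x : EuclideanSpace ℝ (Fin (m + 1))) i =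
        (∑ j : Fin (m + 1), (x : EuclideanSpace ℝ (Fin (m + 1))) j * par i ^ ((j : ℕ) + 1)) - s := by
      intro i
      unfold val
      ring
    have h1 : ¬ TwoColorableOff H {i : W | val (-s) (x : EuclideanSpace ℝ (Fin (m + 1))) i = 0} := by
      intro h2
      have h3 : cd H ≤ {i : W | val (-s) (x : EuclideanSpace ℝ (Fin (m + 1))) i = 0}.ncard :=
        Nat.sInf_le ⟨_, rfl, h2⟩
      have h4 := zeros_card (W := W) (-s) (x : EuclideanSpace ℝ (Fin (m + 1))) hx
      omega
    unfold TwoColorableOff at h1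
    push Not at h1
    obtain ⟨e, he, hdis, hmono⟩ := h1
      (fun i => decide (0 < val (-s) (x : EuclideanSpace ℝ (Fin (m + 1))) i))
    obtain ⟨i₀, hi₀⟩ := H.nonempty e he
    have hz : ∀ i ∈ e, val (-s) (x : EuclideanSpace ℝ (Fin (m + 1))) i ≠ 0 := fun i hi h0 =>
      Set.disjoint_left.mp hdis hi h0
    refine ⟨e, he, ?_⟩
    by_cases hp : 0 < val (-s) (x : EuclideanSpace ℝ (Fin (m + 1))) i₀
    · left
      intro i hi
      have h5 := hmono i hi i₀ hi₀
      have h6 : 0 < val (-s) (x : EuclideanSpace ℝ (Fin (m + 1))) i := by simpa [hp] using h5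
      rw [hval] at h6
      exact sub_pos.1 h6
    · right
      intro i hi
      have h5 := hmono i hi i₀ hi₀
      have h6 : ¬ 0 < val (-s) (x : EuclideanSpace ℝ (Fin (m + 1))) i := by simpa [hp] using h5
      have h7 := lt_of_le_of_ne (not_lt.mp h6) (hz i hi)
      rw [hval] at h7
      exact sub_neg.1 h7

end map

end Pool.Agent.Y857.DC
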