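import Mathlib
import Pool.Agent.Y857.DC.Sweep

/-!
# A Kneser representation with an optimal sweep
-/

set_option autoImplicit false
set_option linter.unusedSectionVars false

namespace Pool.Agent.Y857.DC

open Pool.Agent.Results.MP_1c213c_co Pool.Agent.Results.MP_1c213c_co.DefectCoindex

variable {V : Type}

/-- the pairs of non-adjacent vertices (equal vertices allowed) -/
def NE (G : SimpleGraph V) : Type := {p : V × V // ¬ G.Adj p.1 p.2}

/-- the set of the non-adjacent pairs containing `v` -/
def canon (G : SimpleGraph V) (v : V) : Set (NE G) := {p | p.1.1 = v ∨ p.1.2 = v}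

theorem loop_mem (G : SimpleGraph V) (v : V) :
    (⟨(v, v), G.loopless.irrefl v⟩ : NE G) ∈ canon G v := Or.inl rfl

/-- the hypergraph of the sets `canon G v` -/
def canonH (G : SimpleGraph V) : DefectCoindex.Hypergraph (NE G) where
  edges := Set.range (canon G)
  nonempty := by
    rintro e ⟨v, rfl⟩
    exact ⟨_, loop_mem G v⟩

theorem canon_rep (G : SimpleGraph V) : IsKneserRep G (canonH G) (canon G) := by
  refine ⟨⟨fun v _ => ⟨v, rfl⟩, ?_, ?_⟩, ?_⟩
  · intro v _ w _ h
    have h1 : (⟨(v, v), G.loopless.irrefl v⟩ : NE G) ∈ canon G w := by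
      rw [← h]; exact loop_mem G v
    rcases h1 with h1 | h1 <;> exact h1
  · rintro e ⟨v, rfl⟩
    exact ⟨v, Set.mem_univ v, rfl⟩
  · intro v w hvw
    rw [Set.disjoint_left]
    constructor
    · rintro hadj ⟨⟨a, b⟩, hab⟩ h1 h2
      have hab' : ¬ G.Adj a b := hab
      have h1' : a = v ∨ b = v := h1
      have h2' : a = w ∨ b = w := h2
      rcases h1' with rfl | rfl
      · rcases h2' with h | rfl
        · exact hvw h
        · exact hab' hadj
      · rcases h2' with rfl | h
        · exact hab' hadj.symm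
        · exact hvw h
    · intro h
      by_contra hadj
      exact h (a := (⟨(v, w), hadj⟩ : NE G)) (Or.inl rfl) (Or.inr rfl)

theorem sweep_of_hasMap [Fintype V] {n : ℕ} (G : SimpleGraph V)
    (h : HasMap n (Box G) (swap (simplex_symm G))) : Sweep n (canonH G) := by
  obtain ⟨F, hF, hodd⟩ := h
  have hc : ∀ w, Continuous (fun x => (F x).1 w) := fun w =>
    (continuous_apply w).comp (continuous_subtype_val.comp hF)
  refine ⟨fun x p => max ((F x).1 (p.1.1, true)) ((F x).1 (p.1.2, true)) -
    max ((F x).1 (p.1.1, false)) ((F x).1 (p.1.2, false)), ?_, ?_, ?_⟩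
  · exact continuous_pi fun p => ((hc _).max (hc _)).sub ((hc _).max (hc _))
  · intro x
    funext p
    have h1 : ∀ v b, (F (-x)).1 (v, b) = (F x).1 (v, !b) := by
      intro v b
      rw [hodd]
      rfl
    simp only [h1, Bool.not_true, Bool.not_false, Pi.neg_apply]
    ring
  · intro x s
    set y := F x with hy
    have h0 : ∀ w, 0 ≤ y.1 w := y.2.1
    have hsum : ∑ w, y.1 w = 1 := y.2.2.1
    obtain ⟨⟨hdis, hadj⟩, ⟨a, ha⟩, ⟨b, hb⟩⟩ := y.2.2.2
    -- positive edges
    have hP : ∀ v, y.1 (v, true) ≠ 0 → ∀ p ∈ canon G v,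
        0 < max (y.1 (p.1.1, true)) (y.1 (p.1.2, true)) -
          max (y.1 (p.1.1, false)) (y.1 (p.1.2, false)) := by
      rintro v hv ⟨⟨c, d⟩, hcd⟩ hp
      have hcd' : ¬ G.Adj c d := hcd
      have hpos : 0 < y.1 (v, true) := lt_of_le_of_ne (h0 _) (Ne.symm hv)
      have key : ∀ w, ¬ G.Adj v w → y.1 (w, false) = 0 := by
        intro w hw
        by_contra h1
        exact hw (hadj v hv w h1)
      have hvv : y.1 (v, false) = 0 := key v (G.loopless.irrefl v)
      show 0 < max (y.1 (c, true)) (y.1 (d, true)) - max (y.1 (c, false)) (y.1 (d, false))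
      rcases hp with hp | hp
      · have hp' : c = v := hp
        subst hp'
        rw [hvv, key d hcd', max_self, sub_zero]
        exact lt_of_lt_of_le hpos (le_max_left _ _)
      · have hp' : d = v := hp
        subst hp'
        rw [hvv, key c (fun h => hcd' h.symm), max_self, sub_zero]
        exact lt_of_lt_of_le hpos (le_max_right _ _)
    -- negative edges
    have hN : ∀ v, y.1 (v, false) ≠ 0 → ∀ p ∈ canon G v,
        max (y.1 (p.1.1, true)) (y.1 (p.1.2, true)) -
          max (y.1 (p.1.1, false)) (y.1 (p.1.2, false)) < 0 := by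
      rintro v hv ⟨⟨c, d⟩, hcd⟩ hp
      have hcd' : ¬ G.Adj c d := hcd
      have hpos : 0 < y.1 (v, false) := lt_of_le_of_ne (h0 _) (Ne.symm hv)
      have key : ∀ w, ¬ G.Adj v w → y.1 (w, true) = 0 := by
        intro w hw
        by_contra h1
        exact hw (hadj w h1 v hv).symm
      have hvv : y.1 (v, true) = 0 := key v (G.loopless.irrefl v)
      show max (y.1 (c, true)) (y.1 (d, true)) - max (y.1 (c, false)) (y.1 (d, false)) < 0
      rcases hp with hp | hp
      · have hp' : c = v := hp
        subst hp'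
        rw [hvv, key d hcd', max_self, zero_sub, neg_lt_zero]
        exact lt_of_lt_of_le hpos (le_max_left _ _)
      · have hp' : d = v := hp
        subst hp'
        rw [hvv, key c (fun h => hcd' h.symm), max_self, zero_sub, neg_lt_zero]
        exact lt_of_lt_of_le hpos (le_max_right _ _)
    -- vanishing edges
    have hZA : (∀ v, y.1 (v, false) = 0) → ∀ p ∈ canon G a,
        max (y.1 (p.1.1, true)) (y.1 (p.1.2, true)) -
          max (y.1 (p.1.1, false)) (y.1 (p.1.2, false)) = 0 := by
      rintro hz ⟨⟨c, d⟩, hcd⟩ hp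
      have hcd' : ¬ G.Adj c d := hcd
      have key : ∀ w, ¬ G.Adj w a → y.1 (w, true) = 0 := by
        intro w hw
        by_contra h1
        exact hw (ha w h1)
      have haa : y.1 (a, true) = 0 := key a (G.loopless.irrefl a)
      show max (y.1 (c, true)) (y.1 (d, true)) - max (y.1 (c, false)) (y.1 (d, false)) = 0
      rcases hp with hp | hp
      · have hp' : c = a := hp
        subst hp'
        rw [haa, key d (fun h => hcd' h.symm), hz, hz, max_self, sub_zero]
      · have hp' : d = a := hp
        subst hp'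
        rw [haa, key c hcd', hz, hz, max_self, sub_zero]
    have hZB : (∀ v, y.1 (v, true) = 0) → ∀ p ∈ canon G b,
        max (y.1 (p.1.1, true)) (y.1 (p.1.2, true)) -
          max (y.1 (p.1.1, false)) (y.1 (p.1.2, false)) = 0 := by
      rintro hz ⟨⟨c, d⟩, hcd⟩ hp
      have hcd' : ¬ G.Adj c d := hcd
      have key : ∀ w, ¬ G.Adj w b → y.1 (w, false) = 0 := by
        intro w hw
        by_contra h1
        exact hw (hb w h1)
      have hbb : y.1 (b, false) = 0 := key b (G.loopless.irrefl b)
      show max (y.1 (c, true)) (y.1 (d, true)) - max (y.1 (c, false)) (y.1 (d, false)) = 0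
      rcases hp with hp | hp
      · have hp' : c = b := hp
        subst hp'
        rw [hbb, key d (fun h => hcd' h.symm), hz, hz, max_self, sub_zero]
      · have hp' : d = b := hp
        subst hp'
        rw [hbb, key c hcd', hz, hz, max_self, sub_zero]
    by_cases hA : ∀ v, y.1 (v, true) = 0
    · -- some negative vertex
      obtain ⟨v, hv⟩ : ∃ v, y.1 (v, false) ≠ 0 := by
        by_contra hcon
        push Not at hcon
        have : ∑ w, y.1 w = 0 := by
          refine Finset.sum_eq_zero ?_
          rintro ⟨v, c⟩ -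
          cases c
          · exact hcon v
          · exact hA v
        rw [this] at hsum
        exact zero_ne_one hsum
      rcases lt_or_ge s 0 with hs | hs
      · exact ⟨canon G b, ⟨b, rfl⟩, Or.inl fun p hp => lt_of_lt_of_eq hs (hZB hA p hp).symm⟩
      · exact ⟨canon G v, ⟨v, rfl⟩, Or.inr fun p hp => lt_of_lt_of_le (hN v hv p hp) hs⟩
    · push Not at hA
      obtain ⟨v, hv⟩ := hA
      by_cases hB : ∀ v, y.1 (v, false) = 0
      · rcases lt_or_ge 0 s with hs | hs
        · exact ⟨canon G a, ⟨a, rfl⟩, Or.inr fun p hp => lt_of_eq_of_lt (hZA hB p hp) hs⟩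
        · exact ⟨canon G v, ⟨v, rfl⟩, Or.inl fun p hp => lt_of_le_of_lt hs (hP v hv p hp)⟩
      · push Not at hB
        obtain ⟨w, hw⟩ := hB
        rcases lt_or_ge s 0 with hs | hs
        · exact ⟨canon G v, ⟨v, rfl⟩, Or.inl fun p hp => hs.trans (hP v hv p hp)⟩
        · exact ⟨canon G w, ⟨w, rfl⟩, Or.inr fun p hp => lt_of_lt_of_le (hN w hw p hp) hs⟩

/-- the inclusion of the equator -/
noncomputable def equ {n : ℕ} (x : Sph n) : Sph (n + 1) :=
  ⟨(EuclideanSpace.equiv (Fin (n + 2)) ℝ).symm
    (Fin.cons 0 (EuclideanSpace.equiv (Fin (n + 1)) ℝ x.1) : Fin (n + 2) → ℝ), by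
    rw [mem_sphere_zero_iff_norm]
    have h1 := x.2
    rw [mem_sphere_zero_iff_norm, EuclideanSpace.norm_eq] at h1
    rw [EuclideanSpace.norm_eq, Fin.sum_univ_succ]
    refine Eq.trans ?_ h1
    congr 1
    simp⟩

theorem sweep_pred {W : Type} {H : DefectCoindex.Hypergraph W} {n : ℕ} (h : Sweep (n + 1) H) :
    Sweep n H := by
  obtain ⟨f, hf, hodd, hcov⟩ := h
  have hcont : Continuous (equ (n := n)) := by
    apply Continuous.subtype_mk
    refine (EuclideanSpace.equiv (Fin (n + 2)) ℝ).symm.continuous.comp ?_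
    refine continuous_pi fun i => ?_
    refine Fin.cases ?_ (fun i => ?_) i
    · exact continuous_const
    · exact (continuous_apply i).comp
        ((EuclideanSpace.equiv (Fin (n + 1)) ℝ).continuous.comp continuous_subtype_val)
  have hneg : ∀ x : Sph n, equ (-x) = - equ x := by
    intro x
    apply Subtype.ext
    ext i
    refine Fin.cases ?_ (fun i => ?_) i
    · show (0 : ℝ) = - (0 : ℝ)
      simp
    · rfl
  exact ⟨fun x => f (equ x), hf.comp hcont, fun x => by
    show f (equ (-x)) = _
    rw [hneg, hodd], fun x s => hcov (equ x) s⟩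

theorem sweep_mono {W : Type} {H : DefectCoindex.Hypergraph W} {m n : ℕ} (hmn : m ≤ n)
    (h : Sweep n H) : Sweep m H := by
  induction n, hmn using Nat.le_induction with
  | base => exact h
  | succ n _ ih => exact ih (sweep_pred h)

end Pool.Agent.Y857.DC
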